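import Pool.Agent.Y142.ZD.Stm

/-!
Task ROOTE of project OI: descent of the root argument from the algebraic closure.
-/

set_option autoImplicit false

open Matrix Polynomial
open Pool.Agent.Y142.ZO Pool.Agent.Y142.ZI
open Pool.Agent.Y142.ZS (Generic)

namespace Pool.Agent.Q19.OI.ROOTE

variable {F : Type} [Field F] {N : ℕ}

/-- base change of matrices to the algebraic closure -/
noncomputable def bc (M : Matrix (Fin N) (Fin N) F) : Matrix (Fin N) (Fin N) (AlgebraicClosure F) :=
  M.map (algebraMap F (AlgebraicClosure F))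

lemma bc_mul (A B : Matrix (Fin N) (Fin N) F) : bc (A * B) = bc A * bc B := by
  unfold bc
  exact Matrix.map_mul

lemma bc_add (A B : Matrix (Fin N) (Fin N) F) : bc (A + B) = bc A + bc B := by
  unfold bc
  exact Matrix.map_add _ (map_add _) A B

lemma bc_sub (A B : Matrix (Fin N) (Fin N) F) : bc (A - B) = bc A - bc B := by
  unfold bc
  exact Matrix.map_sub _ (map_sub _) A B

lemma bc_neg (A : Matrix (Fin N) (Fin N) F) : bc (-A) = -bc A := by
  ext i j
  simp [bc]

lemma bc_one : bc (1 : Matrix (Fin N) (Fin N) F) = 1 := by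
  unfold bc
  exact Matrix.map_one _ (map_zero _) (map_one _)

lemma bc_transpose (A : Matrix (Fin N) (Fin N) F) : bc Aᵀ = (bc A)ᵀ := rfl

lemma bc_det (A : Matrix (Fin N) (Fin N) F) :
    (bc A).det = algebraMap F (AlgebraicClosure F) A.det := by
  unfold bc
  exact (RingHom.map_det (algebraMap F (AlgebraicClosure F)) A).symm

lemma bc_charpoly (A : Matrix (Fin N) (Fin N) F) :
    (bc A).charpoly = A.charpoly.map (algebraMap F (AlgebraicClosure F)) := by
  unfold bc
  exact Matrix.charpoly_map A _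

/-- the span over the closure -/
noncomputable def sp (𝔤 : Submodule F (Matrix (Fin N) (Fin N) F)) :
    Submodule (AlgebraicClosure F) (Matrix (Fin N) (Fin N) (AlgebraicClosure F)) :=
  Submodule.span _ (bc '' (𝔤 : Set (Matrix (Fin N) (Fin N) F)))

lemma bc_mem {𝔤 : Submodule F (Matrix (Fin N) (Fin N) F)} {Z : Matrix (Fin N) (Fin N) F}
    (h : Z ∈ 𝔤) : bc Z ∈ sp 𝔤 := Submodule.subset_span ⟨Z, h, rfl⟩

/-- descent: a matrix over the field in the span over the closure is in the span -/
lemma descent (𝔤 : Submodule F (Matrix (Fin N) (Fin N) F)) (X : Matrix (Fin N) (Fin N) F)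
    (h : bc X ∈ sp 𝔤) : X ∈ 𝔤 := by
  classical
  by_contra hX
  obtain ⟨f, hf, hf0⟩ := Submodule.exists_dual_map_eq_bot_of_notMem hX inferInstance
  have hf0' : ∀ Z ∈ 𝔤, f Z = 0 := by
    intro Z hZ
    have : f Z ∈ 𝔤.map f := Submodule.mem_map_of_mem hZ
    rw [hf0] at this
    exact (Submodule.mem_bot _).1 this
  let f' : Matrix (Fin N) (Fin N) (AlgebraicClosure F) →ₗ[AlgebraicClosure F]
      AlgebraicClosure F :=
    { toFun := fun M => ∑ i, ∑ j, algebraMap F (AlgebraicClosure F) (f (Matrix.single i j 1)) * M i j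
      map_add' := by
        intro A B
        simp only [Matrix.add_apply, mul_add, Finset.sum_add_distrib]
      map_smul' := by
        intro c A
        simp only [Matrix.smul_apply, smul_eq_mul, RingHom.id_apply, Finset.mul_sum]
        refine Finset.sum_congr rfl fun i _ => Finset.sum_congr rfl fun j _ => ?_
        ring }
  have key : ∀ Z : Matrix (Fin N) (Fin N) F,
      f' (bc Z) = algebraMap F (AlgebraicClosure F) (f Z) := by
    intro Z
    have h1 : f Z = ∑ i, ∑ j, f (Matrix.single i j 1) * Z i j := by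
      conv_lhs => rw [Matrix.matrix_eq_sum_single Z]
      rw [map_sum]
      refine Finset.sum_congr rfl fun i _ => ?_
      rw [map_sum]
      refine Finset.sum_congr rfl fun j _ => ?_
      have : Matrix.single i j (Z i j) = Z i j • Matrix.single i j (1 : F) := by
        rw [Matrix.smul_single, smul_eq_mul, mul_one]
      rw [this, map_smul, smul_eq_mul, mul_comm]
    rw [h1]
    simp only [map_sum, map_mul]
    rfl
  have h0 : ∀ M ∈ sp 𝔤, f' M = 0 := by
    intro M hM
    have : sp 𝔤 ≤ LinearMap.ker f' := by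
      unfold sp
      rw [Submodule.span_le]
      rintro _ ⟨Z, hZ, rfl⟩
      show f' (bc Z) = 0
      rw [key, hf0' Z hZ, map_zero]
    exact this hM
  have h2 := h0 _ h
  rw [key] at h2
  exact hf ((map_eq_zero _).1 h2)

/-- the irreducibility over the closure -/
lemma irred (𝔤 : Submodule F (Matrix (Fin N) (Fin N) F))
    (hfull : ∀ 𝒜 : Subalgebra F (Matrix (Fin N) (Fin N) F), (∀ Z ∈ 𝔤, Z ∈ 𝒜) → 𝒜 = ⊤)
    (W : Submodule (AlgebraicClosure F) (Fin N → AlgebraicClosure F))
    (hW : ∀ Z ∈ sp 𝔤, ∀ w ∈ W, Z *ᵥ w ∈ W) : W = ⊥ ∨ W = ⊤ := by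
  classical
  let 𝒜 : Subalgebra F (Matrix (Fin N) (Fin N) F) :=
    { carrier := {M | ∀ w ∈ W, bc M *ᵥ w ∈ W}
      mul_mem' := by
        intro A B hA hB w hw
        rw [bc_mul, ← Matrix.mulVec_mulVec]
        exact hA _ (hB _ hw)
      add_mem' := by
        intro A B hA hB w hw
        rw [bc_add, Matrix.add_mulVec]
        exact W.add_mem (hA _ hw) (hB _ hw)
      algebraMap_mem' := by
        intro r w hw
        have : bc (algebraMap F (Matrix (Fin N) (Fin N) F) r) =
            algebraMap F (AlgebraicClosure F) r • (1 : Matrix (Fin N) (Fin N) _) := by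
          ext i j
          simp only [bc, Matrix.map_apply, Matrix.algebraMap_matrix_apply, Matrix.smul_apply,
            Matrix.one_apply, smul_eq_mul]
          split_ifs <;> simp
        rw [this, Matrix.smul_mulVec, Matrix.one_mulVec]
        exact W.smul_mem _ hw }
  have h𝒜 : 𝒜 = ⊤ := hfull 𝒜 fun Z hZ w hw => hW _ (bc_mem hZ) w hw
  have hall : ∀ M : Matrix (Fin N) (Fin N) F, ∀ w ∈ W, bc M *ᵥ w ∈ W := by
    intro M
    have : M ∈ 𝒜 := by rw [h𝒜]; exact Algebra.mem_top
    exact this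
  by_cases hb : W = ⊥
  · exact Or.inl hb
  right
  obtain ⟨w, hw, hw0⟩ := Submodule.exists_mem_ne_zero_of_ne_bot hb
  obtain ⟨j, hj⟩ := Function.ne_iff.1 hw0
  have he : ∀ i, (Pi.single i 1 : Fin N → AlgebraicClosure F) ∈ W := by
    intro i
    have h1 := hall (Matrix.single i j 1) w hw
    have h2 : bc (Matrix.single i j (1 : F)) *ᵥ w = w j • (Pi.single i 1 : Fin N → AlgebraicClosure F) := by
      funext k
      simp only [bc, Matrix.mulVec, dotProduct, Matrix.map_apply, Matrix.single_apply,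
        Pi.smul_apply, smul_eq_mul, Pi.single_apply]
      by_cases hk : i = k
      · subst hk
        simp
      · simp [hk, Ne.symm hk]
    rw [h2] at h1
    have h3 := W.smul_mem (w j)⁻¹ h1
    rwa [smul_smul, inv_mul_cancel₀ hj, one_smul] at h3
  rw [eq_top_iff]
  intro v _
  have : v = ∑ i, v i • (Pi.single i 1 : Fin N → AlgebraicClosure F) := by
    funext k
    simp [Finset.sum_apply, Pi.single_apply]
  rw [this]
  exact W.sum_mem fun i _ => W.smul_mem _ (he i)

lemma root_of_closure (p : F[X]) (x : AlgebraicClosure (AlgebraicClosure F))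
    (hx : aeval x (p.map (algebraMap F (AlgebraicClosure F))) = 0) :
    ∃ x0 : AlgebraicClosure F, algebraMap _ _ x0 = x ∧ aeval x0 p = 0 := by
  obtain ⟨x0, hx0⟩ := (IsAlgClosed.algebraMap_bijective_of_isIntegral
    (k := AlgebraicClosure F) (K := AlgebraicClosure (AlgebraicClosure F))).2 x
  refine ⟨x0, hx0, ?_⟩
  rw [← hx0, aeval_algebraMap_apply] at hx
  have h1 := (map_eq_zero _).1 hx
  rw [aeval_map_algebraMap] at h1
  exact h1

theorem t (hROOTD : Pool.Agent.Y142.ZD.S_ROOTD) : Pool.Agent.Y142.ZD.S_ROOTE := by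
  intro F _ _ N B g 𝔤 hB hBd hIso hsep hgen hxx hskew hbr hconj hfull X hX
  have hchar : CharZero (AlgebraicClosure F) :=
    charZero_of_injective_algebraMap (algebraMap F (AlgebraicClosure F)).injective
  have hgdet : g.det ≠ 0 := by
    intro h0
    have h1 := congrArg Matrix.det hIso
    rw [Matrix.det_mul, h0, mul_zero] at h1
    exact hBd h1.symm
  have hginv : (bc g)⁻¹ = bc g⁻¹ := by
    apply Matrix.inv_eq_right_inv
    rw [← bc_mul, Matrix.mul_nonsing_inv g (isUnit_iff_ne_zero.2 hgdet), bc_one]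
  have hmain := hROOTD (AlgebraicClosure F) N (bc B) (bc g) (sp 𝔤) ?_ ?_ ?_ ?_ ?_ ?_ ?_ ?_ ?_ ?_
    (irred 𝔤 hfull) (bc X) ?_
  · exact descent 𝔤 X hmain
  · rw [← bc_transpose, hB]
  · rw [bc_det]
    exact fun h => hBd ((map_eq_zero _).1 h)
  · show (bc g)ᵀ * bc B * bc g = bc B
    rw [← bc_transpose, ← bc_mul, ← bc_mul]
    exact congrArg bc hIso
  · exact IsAlgClosed.splits _
  · rw [bc_charpoly]
    exact hsep.map
  · intro x y z w hx hy hz hw hxy hxw
    rw [bc_charpoly] at hx hy hz hw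
    obtain ⟨x0, rfl, hx0⟩ := root_of_closure _ x hx
    obtain ⟨y0, rfl, hy0⟩ := root_of_closure _ y hy
    obtain ⟨z0, rfl, hz0⟩ := root_of_closure _ z hz
    obtain ⟨w0, rfl, hw0⟩ := root_of_closure _ w hw
    have hinj := (algebraMap (AlgebraicClosure F) (AlgebraicClosure (AlgebraicClosure F))).injective
    have h1 : x0 ≠ y0 := fun h => hxy (by rw [h])
    have h2 : x0 * w0 = z0 * y0 := by
      apply hinj
      rw [map_mul, map_mul]
      exact hxw
    rcases hgen x0 y0 z0 w0 hx0 hy0 hz0 hw0 h1 h2 with ⟨h3, h4⟩ | ⟨h3, h4⟩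
    · left
      rw [h3, h4]
      exact ⟨rfl, rfl⟩
    · right
      rw [map_one] at h3 h4
      rw [← map_mul, ← map_mul, h3, h4]
      exact ⟨rfl, rfl⟩
  · intro x hx
    apply hxx
    rw [bc_charpoly, eval_map_algebraMap] at hx
    exact hx
  · intro Z hZ
    unfold sp at hZ
    refine Submodule.span_induction (p := fun Z _ => Skew (bc B) Z) ?_ ?_ ?_ ?_ hZ
    · rintro _ ⟨Y, hY, rfl⟩
      show (bc B * bc Y)ᵀ = -(bc B * bc Y)
      rw [← bc_mul, ← bc_transpose, ← bc_neg]
      exact congrArg bc (hskew Y hY)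
    · show (bc B * 0)ᵀ = -(bc B * 0)
      simp
    · intro P Q _ _ hP hQ
      show (bc B * (P + Q))ᵀ = -(bc B * (P + Q))
      have hP' : (bc B * P)ᵀ = -(bc B * P) := hP
      have hQ' : (bc B * Q)ᵀ = -(bc B * Q) := hQ
      rw [Matrix.mul_add, Matrix.transpose_add, hP', hQ', neg_add]
    · intro c P _ hP
      show (bc B * (c • P))ᵀ = -(bc B * (c • P))
      have hP' : (bc B * P)ᵀ = -(bc B * P) := hP
      rw [Matrix.mul_smul, Matrix.transpose_smul, hP', smul_neg]
  · intro P hP Q hQ
    unfold sp at hP hQ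
    refine Submodule.span_induction₂ (p := fun P Q _ _ => P * Q - Q * P ∈ sp 𝔤)
      ?_ ?_ ?_ ?_ ?_ ?_ ?_ hP hQ
    · rintro _ _ ⟨Y, hY, rfl⟩ ⟨Z, hZ, rfl⟩
      rw [← bc_mul, ← bc_mul, ← bc_sub]
      exact bc_mem (hbr Y hY Z hZ)
    · intro y _
      simp
    · intro y _
      simp
    · intro x y z _ _ _ h1 h2
      have : (x + y) * z - z * (x + y) = (x * z - z * x) + (y * z - z * y) := by noncomm_ring
      rw [this]
      exact (sp 𝔤).add_mem h1 h2
    · intro x y z _ _ _ h1 h2
      have : x * (y + z) - (y + z) * x = (x * y - y * x) + (x * z - z * x) := by noncomm_ring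
      rw [this]
      exact (sp 𝔤).add_mem h1 h2
    · intro r x y _ _ h1
      have : (r • x) * y - y * (r • x) = r • (x * y - y * x) := by
        rw [Matrix.smul_mul, Matrix.mul_smul, smul_sub]
      rw [this]
      exact (sp 𝔤).smul_mem _ h1
    · intro r x y _ _ h1
      have : x * (r • y) - (r • y) * x = r • (x * y - y * x) := by
        rw [Matrix.smul_mul, Matrix.mul_smul, smul_sub]
      rw [this]
      exact (sp 𝔤).smul_mem _ h1
  · intro Z hZ
    unfold sp at hZ
    refine Submodule.span_induction (p := fun Z _ => bc g * Z * (bc g)⁻¹ ∈ sp 𝔤) ?_ ?_ ?_ ?_ hZ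
    · rintro _ ⟨Y, hY, rfl⟩
      rw [hginv, ← bc_mul, ← bc_mul]
      exact bc_mem (hconj Y hY)
    · simp
    · intro P Q _ _ hP hQ
      rw [Matrix.mul_add, Matrix.add_mul]
      exact (sp 𝔤).add_mem hP hQ
    · intro c P _ hP
      rw [Matrix.mul_smul, Matrix.smul_mul]
      exact (sp 𝔤).smul_mem _ hP
  · show (bc B * bc X)ᵀ = -(bc B * bc X)
    rw [← bc_mul, ← bc_transpose, ← bc_neg]
    exact congrArg bc hX

end Pool.Agent.Q19.OI.ROOTE
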